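import Pool.Agent.Helper92.WK.Cnn
import Pool.Agent.Helper8.PLK.Zr
import Pool.Agent.Helper79.HLD.Zm

/-!
# Walks of deep types (row CONN): relative connectedness in the zoomed space

`NLK.chg`: labels on extensions of the zoom `S.chg V r` are labels on extensions of `S`; so `NLK O X K` on `S` gives
`NLK` on the zoom, if the base `V` is known to all conditions.  `nlk_deep`: corners; the deep types are
`chgL (c.xi i) ⊔ chgL (dg (c.q 0) (y + e s))`.
-/

set_option autoImplicit false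

namespace Pool.Agent.Helper92.WK

open Finset Filter Topology Pool.Agent.Helper69.RK Pool.Agent.Helper31.EC Pool.Agent.Helper40.EL
open Pool.Agent.Helper31.EC.Sp Pool.Agent.Helper31.EC.QS
open Pool.Agent.Helper8.PLK (unz puz chgL_surj)

noncomputable section

variable {S : Sp}

section jun

variable {W : Sp} {V : S.Inf} {r : ℝ} {hr : 0 < r} (p : Pj W (S.chg V.1 r hr))

/-- the zoom of the extension of the space is an extension of the given extension of the zoom, by the identity -/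
def jun : Pj ((unz p).chg ((puz p).mapI V).1 r hr) W where
  π := fun _ ω => ω
  law := (Pj.id W).law
  hZ := fun k ω ω' a b => (p.hZ k ω ω' a b).symm
  hn := fun k => by
    show r * ((W.F k).n / r) = (W.F k).n
    rw [mul_div_cancel₀ _ hr.ne']

theorem jun_map (x : S.L) : (jun p).map (p.map (chgL V.1 r hr x)) =
    chgL ((puz p).mapI V).1 r hr ((puz p).map x) := by
  induction x using cl_ind
  rfl

end jun

/-- RELATIVE CONNECTEDNESS PASSES TO THE ZOOM -/
theorem NLK.chg {ι : Type} {O : S.L} {X : ι → S.L} {K : S.L} (h : NLK O X K) (V : S.Inf) (r : ℝ) (hr : 0 < r)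
    (hO : cl V ≤ O) (hX : ∀ i, cl V ≤ X i) (hK : cl V ≤ K) :
    NLK (S := S.chg V.1 r hr) (chgL V.1 r hr O) (fun i => chgL V.1 r hr (X i)) (chgL V.1 r hr K) := by
  intro W p V' h0 h1 y'
  obtain ⟨Y, hY, -⟩ := chgL_surj ((puz p).mapI V) r hr ((jun p).map V')
  have key : ∀ x y : S.L, cl V ≤ x → I V' (p.map (chgL V.1 r hr y)) (p.map (chgL V.1 r hr x)) =
      I Y ((puz p).map y) ((puz p).map x) / r := by
    intro x y hx
    rw [← (jun p).I_map, jun_map, jun_map, ← hY, I_chgL_inf, ← (puz p).map_cl, ← (puz p).map_sup,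
      sup_eq_left.mpr hx]
  have back : ∀ x : S.L, cl V ≤ x → (∀ y, I V' (p.map y) (p.map (chgL V.1 r hr x)) = 0) →
      ∀ y, I Y ((puz p).map y) ((puz p).map x) = 0 := by
    intro x hx h2 y
    have h3 := key x y hx
    rw [h2, eq_comm, div_eq_zero_iff, or_iff_left hr.ne'] at h3
    exact h3
  obtain ⟨y, rfl, -⟩ := chgL_surj V r hr y'
  rw [key K y hK, h (unz p) (puz p) Y (back O hO h0) (fun i => back (X i) (hX i) (h1 i)) y, zero_div]

section corner

open Pool.Agent.Helper13.AM Pool.Agent.Helper79.HLD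

variable {d N r : ℕ} {c : CD S d N r} {w : Fin N → ℝ} {z : Fin N} {ρ : ℝ}

/-- RELATIVE CONNECTEDNESS OF DEEP TYPES -/
theorem nlk_deep (hA : c.Ax w z ρ) {y s e : ℝ} (hy : 0 ≤ y) (he : 0 < e) (hs : 0 ≤ s) (h1 : w z * (y + e * s) < 1)
    {Z : ∀ k, Setoid (S.F k).Ω} (hZ : ∀ k, Z k = Setoid.ker (c.VK y k)) :
    NLK (S := S.chg Z e he) (chgL Z e he c.O) (fun i => chgL Z e he (c.xi i ⊔ dg (c.q 0) (y + e * s)))
      (chgL Z e he (c.K (y + e * s))) := by
  have hZ' : Z = (hA.bx.bdd y).toInf.1 := funext hZ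
  subst hZ'
  have hK : cl (hA.bx.bdd y).toInf = c.K y := (io_eq _).symm
  have hes : 0 ≤ e * s := mul_nonneg he.le hs
  have hys : 0 ≤ y + e * s := add_nonneg hy hes
  have hm : c.K y ≤ c.K (y + e * s) := hA.bx.mono _ _ hy (by linarith) h1.le
  refine (nlk_corner c hA hys h1).chg _ e he ?_ (fun i => ?_) ?_
  · rw [hK]
    exact hm.trans (K_le_O hA hys h1.le)
  · rw [hK]
    exact hm.trans (hA.bx.xi _ hys h1.le i)
  · rw [hK]
    exact hm

/-- the field `conn` of walks of deep types -/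
theorem conn_deep (hA : c.Ax w z ρ) {y s e : ℝ} (hy : 0 ≤ y) (he : 0 < e) (hs : 0 ≤ s) (h1 : w z * (y + e * s) < 1)
    {Z : ∀ k, Setoid (S.F k).Ω} (hZ : ∀ k, Z k = Setoid.ker (c.VK y k)) {o : (S.chg Z e he).L}
    (ho : o ≤ chgL Z e he c.O) {x : Fin r → (S.chg Z e he).L}
    (hx : ∀ i, x i ≤ chgL Z e he (c.xi i ⊔ dg (c.q 0) (y + e * s))) (l : Lab (S.chg Z e he)) (hB : l.sp.VB l.V)
    (h2 : Nul (S.chg Z e he) (fun k => (l k).leak (rp o k)))
    (h3 : ∀ i, Nul (S.chg Z e he) (fun k => (l k).leak (rp (x i) k))) :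
    Nul (S.chg Z e he) (fun k => (l k).leak (rp (chgL Z e he (c.K (y + e * s))) k)) :=
  (nlk_deep hA hy he hs h1 hZ).conn ho hx l hB h2 h3

section zoom

variable {y e : ℝ} {he : 0 < e} {h1 : e ≤ 1} {Z : ∀ k, Setoid (S.F k).Ω} {c' : CD (S.chg Z e he) d N r}

/-- the boxes of the zoom -/
theorem K_zoom (hA : c.Ax w z ρ) (hA' : c'.Ax w z ρ) (hz : c.ZR w z y e he h1 Z c') {s : ℝ} (hs : 0 ≤ s)
    (hys : w z * (y + e * s) ≤ 1) : c'.K s = chgL Z e he (c.K (y + e * s)) := by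
  have h2 : chgL Z e he (c.K (y + e * s)) = io (S := S.chg Z e he) (c.VK (y + e * s)) :=
    chgL_io Z e he (hA.bx.bdd _)
  have hb2 : Bdd (S := S.chg Z e he) (c.VK (y + e * s)) := chg_VB Z e he (hA.bx.bdd _)
  rw [h2]
  apply le_antisymm
  · refine io_le_of_fun hb2 ?_
    filter_upwards [Eventually.of_forall (hz.VK s hs hys)] with k hk ω ω' a b g g'
    exact (hk ω ω' a b g).mpr g'
  · refine io_le_of_fun (hA'.bx.bdd s) ?_
    filter_upwards [Eventually.of_forall (hz.VK s hs hys)] with k hk ω ω' a b g g'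
    exact (hk ω ω' a b g).mp g'

/-- the point of the zoom is known to the point -/
theorem O_zoom_le (hA : c.Ax w z ρ) (hy : 0 ≤ y) (hye : w z * y + e ≤ 1) (hz : c.ZR w z y e he h1 Z c') :
    c'.O ≤ chgL Z e he c.O := by
  choose X hX hX' using hz.q
  choose Y hY hY' using hz.R
  have hq' : vd c'.q 1 = chgL Z e he (vd X e) := by
    have h2 := cQ_vd Z e he h1 X le_rfl
    rw [mul_one] at h2
    rw [← h2]
    exact Pool.Agent.Helper38.NS.vd_congr hX' 1
  have hR' : vd c'.R 1 = chgL Z e he (vd Y e) := by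
    have h2 := cQ_vd Z e he h1 Y le_rfl
    rw [mul_one] at h2
    rw [← h2]
    exact Pool.Agent.Helper38.NS.vd_congr hY' 1
  show vd c'.q 1 ⊔ vd c'.R 1 ≤ _
  rw [hq', hR']
  refine sup_le (chgL_mono _ _ _ ((X_le hA hy he hye hX).trans ?_)) (chgL_mono _ _ _ (Y_le_O hA hy he hye hY))
  exact sup_le (K_le_O hA hy (by linarith)) le_sup_left

/-- deep base lines are independent of the point of the zoom over its base point -/
theorem zoom_ind (hA : c.Ax w z ρ) (hy : 0 ≤ y) (hye : w z * y + e ≤ 1) (hz : c.ZR w z y e he h1 Z c')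
    (hA' : c'.Ax w z ρ) (i : Fin r) : I (chgL Z e he (c.b i)) c'.O c'.P = 0 := by
  have hZ : Z = (hA.bx.bdd y).toInf.1 := funext hz.base
  subst hZ
  choose X hX hX' using hz.q
  choose Y hY hY' using hz.R
  have hs1 : w z * y ≤ 1 := by linarith
  have hK : cl (hA.bx.bdd y).toInf = c.K y := (io_eq _).symm
  have hq' : vd c'.q 1 = chgL _ e he (vd X e) := by
    have h2 := cQ_vd (hA.bx.bdd y).toInf.1 e he h1 X le_rfl
    rw [mul_one] at h2
    rw [← h2]
    exact Pool.Agent.Helper38.NS.vd_congr hX' 1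
  have hR' : vd c'.R 1 = chgL _ e he (vd Y e) := by
    have h2 := cQ_vd (hA.bx.bdd y).toInf.1 e he h1 Y le_rfl
    rw [mul_one] at h2
    rw [← h2]
    exact Pool.Agent.Helper38.NS.vd_congr hY' 1
  have hXK := X_le hA hy he hye hX
  -- numbers
  have n1 : h (vd Y e) (vd X e ⊔ c.K y) = ((N : ℝ) - ρ) * e := by
    have h2 := h_R_P hA'
    have h3 : c'.P = vd c'.q 1 := rfl
    rw [h3, hq', hR', h_chgL_inf, hK] at h2
    rw [← h2, div_mul_cancel₀ _ he.ne']
  have n2 := h_Y hA hy he hye hY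
  have hI1 : I c.P (vd Y e) (vd X e ⊔ c.K y) = 0 := by
    apply le_antisymm _ (I_nonneg _ _ _)
    rw [I_eq', n1]
    have h2 : c.P ⊔ (vd X e ⊔ c.K y) ≤ c.K y ⊔ c.P := sup_le le_sup_right (sup_le hXK le_sup_left)
    have h3 := h_anti (A := vd Y e) h2
    linarith
  have hI2 : I (vd (c.u i) 1) (vd Y e) (c.P ⊔ (vd X e ⊔ c.K y)) = 0 := by
    have h2 : I c.O (vd (c.u i) 1) (⊥ : S.L) = 0 := by
      rw [I_comm]
      exact I_zero_mono hA.ln.r1 ((Finset.le_sup (f := fun i => vd (c.u i) 1) (Finset.mem_univ i)).trans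
        le_sup_left) le_sup_left
    have hKO := K_le_O hA hy hs1
    have hPO : c.P ≤ c.O := le_sup_left
    have h3 : I c.O (vd (c.u i) 1) ((c.P ⊔ (vd X e ⊔ c.K y)) ⊔ ⊥) = 0 := by
      apply le_antisymm _ (I_nonneg _ _ _)
      rw [← h2]
      exact I_cond_le (sup_le hPO (sup_le (hXK.trans (sup_le hKO hPO)) hKO))
    rw [sup_bot_eq] at h3
    rw [I_comm]
    exact I_zero_mono h3 ((Y_le_O hA hy he hye hY).trans le_sup_left) le_sup_left
  have hI3 : I (c.P ⊔ vd (c.u i) 1) (vd Y e) (vd X e ⊔ c.K y) = 0 := by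
    rw [I_chain, hI1, hI2, add_zero]
  have hI4 : I (chgL (hA.bx.bdd y).toInf.1 e he (c.P ⊔ vd (c.u i) 1)) (vd c'.R 1) (vd c'.q 1) = 0 := by
    rw [hq', hR', I_chgL_inf, hK, hI3, zero_div]
  have hb : c.b i ≤ c.P ⊔ vd (c.u i) 1 := by
    refine (CD.Ln.b_le hA.ln i).trans ?_
    rw [sup_comm]
  refine I_zero_mono hI4 ((chgL_mono _ _ _ hb).trans le_sup_left) ?_
  exact sup_le le_sup_right le_sup_left

/-- WALKS OF DEEP TYPES: on the zoom of a corner into the box of scale `y` with depth `e`, in the boxes of scale `s`;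
`bV i` = any literal form of the deep base line, `F i` = functions of the deep curve, `o` = functions of the point,
`g` = any family which generates the box and contains `c'.G s` -/
def wiG (hA : c.Ax w z ρ) (hA' : c'.Ax w z ρ) (hy : 0 ≤ y) (hye : w z * y + e ≤ 1) (hz : c.ZR w z y e he h1 Z c')
    {s : ℝ} (hs : 0 ≤ s) (hs1 : w z * s < 1) {al : Fin r → ℕ → Type}
    (bV : ∀ i k, ((S.chg Z e he).F k).Ω → al i k) (hb : ∀ i, Bdd (S := S.chg Z e he) (bV i))
    (hbV : ∀ i, io (S := S.chg Z e he) (bV i) = chgL Z e he (c.b i)) {ο : Type} [Fintype ο]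
    (o : ο → QS (S.chg Z e he)) (ho : vd o 1 ≤ c'.O) (hoq : ∀ a, ∃ i, c'.q a = o i) {φ : Fin r → Type}
    [∀ i, Fintype (φ i)] (F : ∀ i, φ i → QS (S.chg Z e he)) (hF : ∀ i, vd (F i) 1 ≤ chgL Z e he (c.xi i))
    {γ : Type} [Fintype γ] (g : γ → QS (S.chg Z e he)) (hgK : vd g 1 ≤ c'.K s) (hgG : ∀ a, ∃ b, c'.G s a = g b) :
    WI (S.chg Z e he) (Fin r) (Fin (d + 1)) γ ο φ where
  al := al
  bV := bV
  bdd := hb
  F := F
  g := g
  o := o
  q := c'.q
  t := c'.q 0
  s := s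
  s1 := by
    have h1 := hA.w1 z
    nlinarith
  qo := hoq
  tq := dg_le_vd c'.q 1 0
  qb := by
    intro i
    rw [hbV i]
    exact (CD.Ln.P_le hA'.ln i).trans (sup_le_sup_right (hz.b i) _)
  ind := by
    intro i
    rw [hbV i]
    have hK : vd g 1 ≤ c'.O := hgK.trans (K_le_O hA' hs hs1.le)
    exact I_zero_mono (zoom_ind hA hy hye hz hA' i) le_sup_left ((sup_le ho hK).trans le_sup_left)
  treal := by
    intro i
    have hs1' : s ≤ 1 := by
      have h1 := hA.w1 z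
      nlinarith
    have hX : io (S := S.chg Z e he) (bV i) ⊔ (vd (F i) 1 ⊔ vd g 1) ≤
        chgL Z e he (c.xi i) ⊔ dg (c'.q 0) s := by
      rw [hbV i]
      refine sup_le ?_ (sup_le ?_ ?_)
      · exact (chgL_mono _ _ _ (CD.Ln.xi_b i)).trans le_sup_left
      · exact (hF i).trans le_sup_left
      · exact hgK.trans ((hA'.bx.xi s hs hs1.le i).trans (sup_le_sup_right (hz.xi i) _))
    have h2 : h (dg (c'.q 0) 1) (chgL Z e he (c.xi i) ⊔ dg (c'.q 0) s) ≤
        h (dg (c'.q 0) 1) (io (S := S.chg Z e he) (bV i) ⊔ (vd (F i) 1 ⊔ vd g 1)) := h_anti hX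
    have h3 := h_triangle (dg (c'.q 0) 1) (dg (c'.q 0) s) (chgL Z e he (c.xi i))
    rw [sup_comm (dg (c'.q 0) s)] at h3
    have h4 : h (dg (c'.q 0) s) (chgL Z e he (c.xi i)) ≤ s := (h_le_H _ _).trans (H_dg_le _ hs)
    have h5 := zoom_time hA hy hye hz i (hA.bx.xi y hy (by linarith) i)
    linarith
  tbox := by
    intro W P P' hg
    have hG : ∀ a, P.qs (c'.G s a) = P'.qs (c'.G s a) := by
      intro a
      obtain ⟨b, hb⟩ := hgG a
      rw [hb]
      exact hg b
    have h1 := ((hA'.bx.fr s W P P' hG).1 0)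
    have h2 := hA'.bx.fq s hs hs1.le 0
    have hs1' : s ≤ 1 := by
      have h1 := hA.w1 z
      nlinarith
    have h3 := (P.qs_mem_Id hs1').mpr h2
    have h4 := (P'.qs_mem_Id hs1').mpr h2
    have h5 := Ideal.sub_mem _ h4 h3
    rw [map_sub, map_sub, h1] at h5
    rwa [sub_sub_sub_cancel_right] at h5
  conn := by
    intro l hB h2 h3
    have hys : w z * (y + e * s) < 1 := by
      have h4 : e * (w z * s) < e * 1 := mul_lt_mul_of_pos_left hs1 he
      nlinarith
    have hys0 : 0 ≤ y + e * s := add_nonneg hy (mul_nonneg he.le hs)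
    have hK : vd g 1 = chgL Z e he (c.K (y + e * s)) := by
      rw [← K_zoom hA hA' hz hs hys.le]
      apply le_antisymm hgK
      rw [hA'.bx.gen s hs hs1.le, vd_le]
      intro a
      obtain ⟨b, hb⟩ := hgG a
      rw [hb]
      exact dg_le_vd g 1 b
    rw [hK] at h2 h3 ⊢
    refine conn_deep hA hy he hs hys hz.base ?_ (fun i => ?_) l hB h2 h3
    · exact sup_le (ho.trans (O_zoom_le hA hy hye hz)) (chgL_mono _ _ _ (K_le_O hA hys0 hys.le))
    · rw [hbV i]
      refine sup_le (chgL_mono _ _ _ ((CD.Ln.xi_b i).trans le_sup_left)) (sup_le ((hF i).trans ?_) ?_)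
      · exact chgL_mono _ _ _ le_sup_left
      · exact chgL_mono _ _ _ (hA.bx.xi _ hys0 hys.le i)

/-- the same with the box family `c'.G s` -/
def wiD (hA : c.Ax w z ρ) (hA' : c'.Ax w z ρ) (hy : 0 ≤ y) (hye : w z * y + e ≤ 1) (hz : c.ZR w z y e he h1 Z c')
    {s : ℝ} (hs : 0 ≤ s) (hs1 : w z * s < 1) {al : Fin r → ℕ → Type}
    (bV : ∀ i k, ((S.chg Z e he).F k).Ω → al i k) (hb : ∀ i, Bdd (S := S.chg Z e he) (bV i))
    (hbV : ∀ i, io (S := S.chg Z e he) (bV i) = chgL Z e he (c.b i)) {ο : Type} [Fintype ο]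
    (o : ο → QS (S.chg Z e he)) (ho : vd o 1 ≤ c'.O) (hoq : ∀ a, ∃ i, c'.q a = o i) {φ : Fin r → Type}
    [∀ i, Fintype (φ i)] (F : ∀ i, φ i → QS (S.chg Z e he)) (hF : ∀ i, vd (F i) 1 ≤ chgL Z e he (c.xi i)) :
    WI (S.chg Z e he) (Fin r) (Fin (d + 1)) (Fin (c'.m s)) ο φ :=
  wiG hA hA' hy hye hz hs hs1 bV hb hbV o ho hoq F hF (c'.G s) (hA'.bx.gen s hs hs1.le).ge fun a => ⟨a, rfl⟩

end zoom

end corner

end

end Pool.Agent.Helper92.WK
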