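import Pool.Agent.Helper92.WK.Ok

/-!
# Walks (row W1): the last point of a long walk is almost independent of the first one over the box
-/

set_option autoImplicit false

namespace Pool.Agent.Helper92.WK

open Finset Filter Topology Pool.Agent.Helper69.RK Pool.Agent.Helper31.EC Pool.Agent.Helper40.EL
open Pool.Agent.Helper31.EC.Sp Pool.Agent.Helper31.EC.QS

noncomputable section

variable {S : Sp} {ι β γ ο : Type} [Fintype β] [Fintype γ] [Fintype ο] {φ : ι → Type} [∀ i, Fintype (φ i)]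

theorem lab_info_le {W : Sp} (p : Pj W S) (V : ∀ k, Setoid (W.F k).Ω) (k : ℕ) :
    (lab p V k).info ≤ H (fc (V k) : FL (W.F k)) := by
  have h1 : (lab p V k).info = I (fc (V k)) (p.fp k).top ⊥ := rfl
  rw [h1, ← h_bot]
  exact I_le_h_left _ _ _

theorem I_rpI {W : Sp} (A B C : W.Inf) : I (cl A) (cl B) (cl C) =
    ul (fun k => I (rpI A k) (rpI B k) (rpI C k) / (W.F k).n) := by
  rw [I_eq, ← Sp.cl_sup, ← hr_rpI, ← hr_rpI]
  unfold hr
  rw [← ul_sub ((rpI_Bd A).ub _) ((rpI_Bd A).ub _)]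
  congr 1
  funext k
  rw [I_eq, sub_div]
  rfl

theorem UB_I_rpI {W : Sp} (A B C : W.Inf) : UB (fun k => I (rpI A k) (rpI B k) (rpI C k) / (W.F k).n) := by
  have h1 := ((rpI_Bd A).ub (rpI C)).sub ((rpI_Bd A).ub (rpI (Sp.Inf.sup B C)))
  have h2 : (fun k => I (rpI A k) (rpI B k) (rpI C k) / (W.F k).n) =
      fun k => h (rpI A k) (rpI C k) / (W.F k).n - h (rpI A k) (rpI (Sp.Inf.sup B C) k) / (W.F k).n := by
    funext k
    rw [I_eq, sub_div]
    rfl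
  rw [h2]
  exact h1

namespace WI

variable (D : WI S ι β γ ο φ)

/-- the box as a condition -/
def Gp : Part S := fun k => fc (Setoid.ker (lit D.g k))

/-- the conditions: the point, the types -/
def Ap : Option ι → Part S
  | none => fun k => fc (Setoid.ker (D.uo k))
  | some i => fun k => fc (Setoid.ker (D.ui i k))

theorem Gp_rp : PLe (rp (vd D.g 1)) D.Gp := by
  have h1 := (rp_rpI (lit_bdd D.g).toInf).1
  rw [← Sp.io_eq, io_lit] at h1
  exact h1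

theorem Ao_rp : PLe (D.Ap none) (rp (vd D.o 1 ⊔ vd D.g 1)) := by
  have h1 := (rp_rpI D.uo_bdd.toInf).2
  rw [← Sp.io_eq, D.io_uo] at h1
  exact h1

theorem Ai_rp (i : ι) : PLe (D.Ap (some i)) (rp (Sp.io (D.bV i) ⊔ (vd (D.F i) 1 ⊔ vd D.g 1))) := by
  have h1 := (rp_rpI (D.ui_bdd i).toInf).2
  rw [← Sp.io_eq, D.io_ui] at h1
  exact h1

theorem nul_of_PLe {y : Lab S} {A B : Part S} (h : Nul S (fun k => (y k).leak (A k))) (hAB : PLe A B) :
    Nul S (fun k => (y k).leak (B k)) :=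
  (h.add hAB).of_le (Eventually.of_forall fun k => (y k).leak_nonneg _)
    (Eventually.of_forall fun k => (y k).leak_le_leak (B k) (A k))

/-- a bound of the number of values of the point -/
def oC : ℝ := (lit_bdd D.o).choose

theorem oC_spec : ∀ᶠ k in UF, ∀ ω, (S.F k).μ ω ≠ 0 →
    (Sp.nv (S.F k) (Setoid.ker (lit D.o k)) ω : ℝ) ≤ 2 ^ (D.oC * (S.F k).n) := (lit_bdd D.o).choose_spec

/-- bounded labels -/
def Pr (k : ℕ) (x : FLab (S.F k)) : Prop :=
  ∀ ω, x.T.μ ω ≠ 0 → (Sp.nv x.T x.V ω : ℝ) ≤ 2 ^ (D.oC * x.T.n)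

theorem conn' (y : Lab S) (hP : ∀ᶠ k in UF, D.Pr k (y k)) (hy : y.DMf D.Ap) :
    Nul S (fun k => (y k).leak (D.Gp k)) :=
  nul_of_PLe (D.conn y ⟨D.oC, hP⟩ (nul_of_PLe (hy none) D.Ao_rp)
    fun i => nul_of_PLe (hy (some i)) (D.Ai_rp i)) D.Gp_rp

end WI

namespace Wd

variable {D : WI S ι β γ ο φ} (w : Wd D) (i : ι)

/-- the partition of the first point -/
def V0 : ∀ k, Setoid (w.W.F k).Ω := fun k => Setoid.comap (w.p0.π k) (Setoid.ker (lit D.o k))

/-- the label of the walk -/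
def L : Lab S := lab w.pe w.V0

/-- the label of the refreshed walk -/
def Ly : Lab S := lab w.rf.p2 (stV w.pe D.uo w.V0)

theorem H_V0 (k : ℕ) : H (fc (w.V0 k) : FL (w.W.F k)) = H (rpI (lit_bdd D.o).toInf k) :=
  (w.p0.fp k).H_map (fc (Setoid.ker (lit D.o k)))

theorem H_stV (k : ℕ) : H (fc (stV w.pe D.uo w.V0 k) : FL (w.rf.sp.F k)) = H (fc (w.V0 k) : FL (w.W.F k)) :=
  (fam w.rf k).p1.H_map (fc (w.V0 k))

theorem L_UB : UB (fun k => (w.L k).info / (S.F k).n) := by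
  refine UB.sandwich (UB_const 0) (rpI_Bd (lit_bdd D.o).toInf) ?_ ?_
  · exact Eventually.of_forall fun k => div_nonneg (w.L k).info_nonneg (S.F k).pos.le
  · refine Eventually.of_forall fun k => div_le_div_of_nonneg_right ?_ (S.F k).pos.le
    rw [← w.H_V0 k]
    exact lab_info_le w.pe w.V0 k

theorem Ly_UB : UB (fun k => (w.Ly k).info / (S.F k).n) := by
  refine UB.sandwich (UB_const 0) (rpI_Bd (lit_bdd D.o).toInf) ?_ ?_
  · exact Eventually.of_forall fun k => div_nonneg (w.Ly k).info_nonneg (S.F k).pos.le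
  · refine Eventually.of_forall fun k => div_le_div_of_nonneg_right ?_ (S.F k).pos.le
    rw [← w.H_V0 k, ← w.H_stV k]
    exact lab_info_le w.rf.p2 (stV w.pe D.uo w.V0) k

theorem Ly_Pr : ∀ᶠ k in UF, D.Pr k (w.Ly k) := by
  filter_upwards [D.oC_spec] with k hk ω hω
  have h1 : Sp.nv (w.Ly k).T (w.Ly k).V ω = Sp.nv (w.rf.sp.F k) (Setoid.comap (w.rf.p1.π k) (w.V0 k)) ω := rfl
  have hω' : (w.rf.sp.F k).μ ω ≠ 0 := hω
  have h2 := w.rf.p1.supp k ω hω'
  have h3 : (w.Ly k).T.n = (S.F k).n := w.rf.p2.hn k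
  rw [h1, w.rf.p1.nv_comap k (w.V0 k) ω hω', h3]
  unfold V0
  rw [w.p0.nv_comap k _ _ h2]
  exact hk _ (w.p0.supp k _ h2)

theorem Ly_none (k : ℕ) : (w.Ly k).leak (D.Ap none k) = 0 := leak_zero w.pe D.uo w.V0 k

theorem Ly_G (k : ℕ) : (w.Ly k).leak (D.Gp k) = (w.L k).leak (D.Gp k) - (w.L k).leak (D.Ap none k) :=
  leak_step w.pe D.uo w.V0 k (Setoid.ker (lit D.g k)) fun _ _ _ _ e => (Prod.mk.inj e).2

theorem L_ext : (w.ext i).L = lab (w.eg i).p2 (stV w.rf.p2 (D.ui i) (stV w.pe D.uo w.V0)) := by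
  unfold L V0
  rw [ext_pe, ext_p0]
  rfl

theorem L_ext_G (k : ℕ) : ((w.ext i).L k).leak (D.Gp k) =
    (w.Ly k).leak (D.Gp k) - (w.Ly k).leak (D.Ap (some i) k) := by
  rw [L_ext]
  exact leak_step w.rf.p2 (D.ui i) (stV w.pe D.uo w.V0) k (Setoid.ker (lit D.g k))
    fun _ _ _ _ e => (Prod.mk.inj (Prod.mk.inj e).2).2

theorem lk_none : Lab.lk w.Ly (D.Ap none) ≤ 0 := by
  have h1 : (fun k => (w.Ly k).leak (D.Ap none k) / (S.F k).n) = fun _ => 0 := by
    funext k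
    rw [w.Ly_none k, zero_div]
  unfold Lab.lk
  rw [h1, ul_const]

theorem lk_G : Lab.lk w.Ly D.Gp ≤ Lab.lk w.L D.Gp := by
  apply ul_mono (Lab.leak_UB w.Ly_UB _) (Lab.leak_UB w.L_UB _)
  refine Eventually.of_forall fun k => div_le_div_of_nonneg_right ?_ (S.F k).pos.le
  rw [w.Ly_G k]
  have := (w.L k).leak_nonneg (D.Ap none k)
  linarith

theorem lk_ext : Lab.lk (w.ext i).L D.Gp = Lab.lk w.Ly D.Gp - Lab.lk w.Ly (D.Ap (some i)) := by
  unfold Lab.lk
  rw [← ul_sub (Lab.leak_UB w.Ly_UB _) (Lab.leak_UB w.Ly_UB _)]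
  congr 1
  funext k
  rw [L_ext_G, sub_div]

/-- the information of the last point about the first point beyond the box is at most the leak at the box -/
theorem I_le_lk : I (w.pe.map (vd D.o 1)) (w.p0.map (vd D.o 1)) (w.p0.map (vd D.g 1)) ≤ Lab.lk w.L D.Gp := by
  have hg : w.p0.map (vd D.g 1) = w.pe.map (vd D.g 1) := by
    rw [← w.p0.qs_vd, ← w.pe.qs_vd]
    congr 1
    funext a
    exact (w.g_common (Fin.last w.K) a).symm
  have ho : vd D.o 1 = cl (lit_bdd D.o).toInf := by rw [← Sp.io_eq, io_lit]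
  have hgg : vd D.g 1 = cl (lit_bdd D.g).toInf := by rw [← Sp.io_eq, io_lit]
  rw [hg, I_comm, ho, hgg, Pj.map_cl, Pj.map_cl, Pj.map_cl, I_rpI]
  apply ul_mono (UB_I_rpI _ _ _) (Lab.leak_UB w.L_UB _)
  refine Eventually.of_forall fun k => ?_
  rw [w.pe.hn k]
  apply div_le_div_of_nonneg_right _ (S.F k).pos.le
  exact I_mono_right (((w.pe.fp k).map_le_top (fc (Setoid.ker (lit D.o k)))).trans le_sup_left)

end Wd

/-- **LONG WALKS**: for every `ε > 0` there is a walk whose last point is independent of the first point over the box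
up to `ε` -/
theorem exists_walk [Finite ι] [Nonempty ι] (D : WI S ι β γ ο φ) (ε : ℝ) (hε : 0 < ε) :
    ∃ w : Wd D, w.Ok ∧ I (w.pe.map (vd D.o 1)) (w.p0.map (vd D.o 1)) (w.p0.map (vd D.g 1)) ≤ ε := by
  have : Nonempty {w : Wd D // w.Ok} := ⟨⟨Wd.nil D, Wd.ok_nil⟩⟩
  obtain ⟨x, hx⟩ := mix_rel (X := {w : Wd D // w.Ok}) (fun x => x.1.L) D.Ap D.Gp D.Pr (fun x => x.1.L_UB)
    (fun x => ⟨x.1.Ly, x.1.Ly_UB, x.1.lk_none, x.1.lk_G, x.1.Ly_Pr,
      fun i => ⟨⟨x.1.ext i, x.1.ok_ext i x.2⟩, (x.1.lk_ext i).le⟩⟩)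
    D.conn' ε hε
  exact ⟨x.1, x.2, x.1.I_le_lk.trans hx.le⟩

/-- the last point is almost real over the first point -/
theorem exists_walk_h [Finite ι] [Nonempty ι] (D : WI S ι β γ ο φ) (ε : ℝ) (hε : 0 < ε) :
    ∃ w : Wd D, w.Ok ∧ ∀ x : S.L, x ≤ vd D.o 1 →
      h x (vd D.g 1) - ε ≤ h (w.pe.map x) (w.p0.map (vd D.o 1) ⊔ w.p0.map (vd D.g 1)) := by
  obtain ⟨w, hw, h1⟩ := exists_walk D ε hε
  refine ⟨w, hw, fun x hx => ?_⟩
  have hg : w.p0.map (vd D.g 1) = w.pe.map (vd D.g 1) := by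
    rw [← w.p0.qs_vd, ← w.pe.qs_vd]
    congr 1
    funext a
    exact (w.g_common (Fin.last w.K) a).symm
  have h2 : I (w.pe.map x) (w.p0.map (vd D.o 1)) (w.p0.map (vd D.g 1)) ≤ ε :=
    (I_mono_left ((w.pe.map_mono hx).trans le_sup_left)).trans h1
  rw [I_eq] at h2
  have h3 : h (w.pe.map x) (w.p0.map (vd D.g 1)) = h x (vd D.g 1) := by
    rw [hg, w.pe.h_map]
  linarith

end

end Pool.Agent.Helper92.WK
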