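import Pool.Agent.Helper92.WK.Real
import Pool.Agent.Helper13.AM.Cor

/-!
# Walks (row W1): relative connectedness in the language of labels, walks of a corner

`NLK O X K`: labels without information beyond `O` and beyond every `X i` have no information beyond `K`.  It gives
the field `conn` of `WI`.  `wiC`: every corner (helper13) has walks in every box.
-/

set_option autoImplicit false

namespace Pool.Agent.Helper92.WK

open Finset Filter Topology Pool.Agent.Helper69.RK Pool.Agent.Helper31.EC Pool.Agent.Helper40.EL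
open Pool.Agent.Helper31.EC.Sp Pool.Agent.Helper31.EC.QS

noncomputable section

variable {S : Sp}

section lab

variable (l : Lab S) (hB : l.sp.VB l.V)

/-- a bounded label as an information of its space -/
def lvI : l.sp.Inf := ⟨l.V, hB⟩

def lv : l.sp.L := cl (lvI l hB)

theorem I_lv (y x : S.L) : I (lv l hB) (l.pj.map y) (l.pj.map x) =
    ul (fun k => I (l k).v ((l k).p.map (rp y k)) ((l k).p.map (rp x k)) / (S.F k).n) := by
  have h1 : l.pj.map y = cl (l.pj.mapI (rpo y)) := by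
    rw [← l.pj.map_cl, cl_rpo]
  have h2 : l.pj.map x = cl (l.pj.mapI (rpo x)) := by
    rw [← l.pj.map_cl, cl_rpo]
  rw [h1, h2]
  unfold lv
  rw [I_rpI]
  congr 1
  funext k
  have h3 : (l.sp.F k).n = (S.F k).n := l.pj.hn k
  rw [h3]
  rfl

theorem UB_lv (y x : S.L) : UB (fun k => I (l k).v ((l k).p.map (rp y k)) ((l k).p.map (rp x k)) / (S.F k).n) := by
  refine UB.sandwich (UB_const 0) ((rp_Bd y).ub (fun _ => ⊥)) ?_ ?_
  · exact Eventually.of_forall fun k => div_nonneg (I_nonneg _ _ _) (S.F k).pos.le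
  · refine Eventually.of_forall fun k => div_le_div_of_nonneg_right ?_ (S.F k).pos.le
    rw [h_bot, ← (l k).p.H_map]
    exact (I_le_h_right _ _ _).trans (h_le_H _ _)

/-- no leak: no information -/
theorem I_lv_zero {x : S.L} (hx : Nul S (fun k => (l k).leak (rp x k))) (y : S.L) :
    I (lv l hB) (l.pj.map y) (l.pj.map x) = 0 := by
  apply le_antisymm _ (I_nonneg _ _ _)
  rw [I_lv]
  have h1 : ul (fun k => (l k).leak (rp x k) / (S.F k).n) = 0 := ul_eq hx
  rw [← h1]
  refine ul_mono (UB_lv l y x) (UB_of_tendsto hx) (Eventually.of_forall fun k => ?_)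
  exact div_le_div_of_nonneg_right (I_mono_right (((l k).p.map_le_top _).trans le_sup_left)) (S.F k).pos.le

/-- no information beyond a deeper condition -/
theorem I_zero_up {L : Type*} [PM L] {v x x' : L} {T : Set L} (hT : ∀ y ∈ T, y ⊔ x' ∈ T)
    (h : ∀ y ∈ T, I v y x = 0) (hxx : x ≤ x') (y : L) (hy : y ∈ T) : I v y x' = 0 := by
  have h1 : I v (x' ⊔ y) x = 0 := by
    rw [sup_comm]
    exact h _ (hT y hy)
  have h2 := (I_decomp h1).2
  rwa [sup_eq_left.mpr hxx] at h2

/-- information at a smaller condition from the leak at a larger one -/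
theorem nul_lv {x o : S.L} (ho : Nul S (fun k => (l k).leak (rp o k)))
    (h : I (lv l hB) (l.pj.map o) (l.pj.map x) = 0) : Nul S (fun k => (l k).leak (rp x k)) := by
  have h1 : Nul S (fun k => I (l k).v ((l k).p.map (rp o k)) ((l k).p.map (rp x k))) := by
    have h2 := ul_tendsto (UB_lv l o x)
    rw [← I_lv l hB, h] at h2
    exact h2
  refine (h1.add ho).of_le (Eventually.of_forall fun k => (l k).leak_nonneg _) (Eventually.of_forall fun k => ?_)
  have h3 : (l k).leak (rp x k) = I (l k).v (l k).p.top ((l k).p.map (rp x k)) := rfl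
  have h4 : (l k).leak (rp o k) = I (l k).v (l k).p.top ((l k).p.map (rp o k)) := rfl
  have h5 := I_chain_right (l k).v ((l k).p.map (rp o k)) (l k).p.top ((l k).p.map (rp x k))
  rw [sup_eq_right.mpr ((l k).p.map_le_top _)] at h5
  rw [h3, h4, h5]
  have h6 : I (l k).v (l k).p.top ((l k).p.map (rp o k) ⊔ (l k).p.map (rp x k)) ≤
      I (l k).v (l k).p.top ((l k).p.map (rp o k)) := by
    rw [I_comm, I_comm (l k).v, sup_comm]
    exact I_cond_le ((l k).p.map_le_top _)
  linarith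

end lab

/-- labels without information beyond `O` and beyond every `X i` have no information beyond `K` -/
def NLK {ι : Type} (O : S.L) (X : ι → S.L) (K : S.L) : Prop := ∀ (W : Sp) (p : Pj W S) (V : W.L),
  (∀ y : S.L, I V (p.map y) (p.map O) = 0) → (∀ (i : ι) (y : S.L), I V (p.map y) (p.map (X i)) = 0) →
    ∀ y : S.L, I V (p.map y) (p.map K) = 0

theorem NLK.conn {ι : Type} {O : S.L} {X : ι → S.L} {K : S.L} (h : NLK O X K) {o : S.L} (ho : o ≤ O)
    {x : ι → S.L} (hx : ∀ i, x i ≤ X i) (l : Lab S) (hB : l.sp.VB l.V)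
    (h0 : Nul S (fun k => (l k).leak (rp o k))) (h1 : ∀ i, Nul S (fun k => (l k).leak (rp (x i) k))) :
    Nul S (fun k => (l k).leak (rp K k)) := by
  have up : ∀ {z Z : S.L}, z ≤ Z → Nul S (fun k => (l k).leak (rp z k)) → ∀ y : S.L,
      I (lv l hB) (l.pj.map y) (l.pj.map Z) = 0 := by
    intro z Z hz hn y
    refine I_zero_up (T := Set.range l.pj.map) ?_ ?_ (l.pj.map_mono hz) _ ⟨y, rfl⟩
    · rintro _ ⟨y, rfl⟩
      exact ⟨y ⊔ Z, l.pj.map_sup _ _⟩
    · rintro _ ⟨y, rfl⟩
      exact I_lv_zero l hB hn y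
  exact nul_lv l hB h0 (h l.sp l.pj (lv l hB) (up ho h0) (fun i => up (hx i) (h1 i)) o)

section corner

open Pool.Agent.Helper13.AM

theorem I_restL_typ {E : ∀ k, (S.F k).Ω → Prop} (hE : Typ E) (x y v : S.L) :
    I (restL E (ul_pr_typ_pos E hE) x) (restL E (ul_pr_typ_pos E hE) y) (restL E (ul_pr_typ_pos E hE) v) =
      I x y v := by
  rw [I_eq, I_eq, ← restL_sup, h_restL_typ E hE, h_restL_typ E hE]

variable {d N r : ℕ} (c : CD S d N r) {w : Fin N → ℝ} {z : Fin N} {ρ : ℝ}

theorem nlk_corner (hA : c.Ax w z ρ) {s : ℝ} (hs : 0 ≤ s) (hs1 : w z * s < 1) :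
    NLK c.O (fun i => c.xi i ⊔ dg (c.q 0) s) (c.K s) := by
  intro W p V h0 h1 y
  have hE : Typ (S := W) (fun _ _ => True) := Typ_true
  have h2 := hA.lb.nlk s hs hs1 W p (fun _ _ => True) (ul_pr_typ_pos _ hE) (restL _ (ul_pr_typ_pos _ hE) V)
    (fun y => (I_restL_typ hE _ _ _).trans (h0 y)) (fun i y => (I_restL_typ hE _ _ _).trans (h1 i y)) y
  exact (I_restL_typ hE _ _ _).symm.trans h2

/-- `WALKS OF A CORNER` in the boxes of scale `s`: `o` = functions of the point, `F i` = functions of the curves -/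
def wiC (hA : c.Ax w z ρ) {s : ℝ} (hs : 0 ≤ s) (hs1 : w z * s < 1) (hxi : ∀ i, c.K s ≤ c.xi i ⊔ dg (c.q 0) s) {ο : Type} [Fintype ο] (o : ο → QS S)
    (ho : vd o 1 ≤ c.O) (hoq : ∀ a, ∃ i, c.q a = o i) {φ : Fin r → Type} [∀ i, Fintype (φ i)]
    (F : ∀ i, φ i → QS S) (hF : ∀ i, vd (F i) 1 ≤ c.xi i) : WI S (Fin r) (Fin (d + 1)) (Fin (c.m s)) ο φ where
  al := c.al
  bV := c.bV
  bdd := hA.ln.bdd
  F := F
  g := c.G s
  o := o
  q := c.q
  t := c.q 0
  s := s
  s1 := by
    have h1 := hA.w1 z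
    nlinarith
  qo := hoq
  tq := dg_le_vd c.q 1 0
  qb := by
    intro i
    rw [vd_le]
    intro j
    rw [hA.ln.line i j]
    refine (dg_add_le _ _ le_rfl).trans (sup_le ?_ ((dg_mul_le _ _ le_rfl).trans (sup_le le_sup_right ?_)))
    · exact ((hA.ln.lit i j).1.dg_le (hA.ln.bdd i) le_rfl).trans le_sup_left
    · exact ((hA.ln.lit i j).2.dg_le (hA.ln.bdd i) le_rfl).trans le_sup_left
  ind := by
    intro i
    have hK : vd (c.G s) 1 ≤ c.O := by
      rw [← hA.bx.gen s hs hs1.le]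
      exact (hA.bx.pt s hs hs1.le).trans (sup_le_sup (vd_mono c.q hs1.le) (vd_mono c.R hs1.le))
    have h1 : I (vd (c.u i) 1) c.O c.P = 0 := by
      have h2 : I c.O (univ.sup fun i => vd (c.u i) 1) ⊥ = 0 := by
        rw [I_comm]
        exact hA.ln.r1
      have h3 : I (vd (c.u i) 1) (c.P ⊔ c.O) ⊥ = 0 := by
        have hPO : c.P ≤ c.O := le_sup_left
        rw [sup_eq_right.mpr hPO]
        rw [I_comm] at h2
        exact I_zero_mono h2 ((Finset.le_sup (f := fun i => vd (c.u i) 1) (Finset.mem_univ i)).trans le_sup_left)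
          le_sup_left
      have h4 := (I_decomp h3).2
      rwa [sup_bot_eq] at h4
    refine I_zero_mono h1 ?_ ((sup_le ho hK).trans le_sup_left)
    have h5 : io (c.bV i) = vd (c.a i) 1 ⊔ vd (c.u i) 1 := hA.ln.gen i
    rw [h5]
    refine sup_le ?_ le_sup_left
    rw [vd_le]
    intro j
    have h6 : c.a i j = c.q j - c.q 0 * c.u i j := by
      rw [hA.ln.line i j]
      ring
    rw [h6]
    refine (dg_sub_le _ _ le_rfl).trans (sup_le ((dg_le_vd c.q 1 j).trans le_sup_right) ?_)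
    exact (dg_mul_le _ _ le_rfl).trans (sup_le ((dg_le_vd c.q 1 0).trans le_sup_right)
      ((dg_le_vd (c.u i) 1 j).trans le_sup_left))
  treal := by
    intro i
    have hs1' : s ≤ 1 := by
      have h1 := hA.w1 z
      nlinarith
    have hX : io (c.bV i) ⊔ (vd (F i) 1 ⊔ vd (c.G s) 1) ≤ c.xi i ⊔ dg (c.q 0) s := by
      refine sup_le ?_ (sup_le ?_ ?_)
      · exact le_sup_left.trans (le_sup_left (a := c.xi i))
      · exact (hF i).trans le_sup_left
      · rw [← hA.bx.gen s hs hs1.le]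
        exact hxi i
    have h1 : h (dg (c.q 0) 1) (c.xi i ⊔ dg (c.q 0) s) ≤ h (dg (c.q 0) 1) (io (c.bV i) ⊔ (vd (F i) 1 ⊔ vd (c.G s) 1)) :=
      h_anti hX
    have h2 := h_triangle (dg (c.q 0) 1) (dg (c.q 0) s) (c.xi i)
    rw [sup_comm (dg (c.q 0) s)] at h2
    have h3 : h (dg (c.q 0) s) (c.xi i) ≤ s := (h_le_H _ _).trans (H_dg_le _ hs)
    have h4 := hA.ln.time i
    linarith
  tbox := by
    intro W P P' hg
    have h1 := ((hA.bx.fr s W P P' hg).1 0)
    have h2 := hA.bx.fq s hs hs1.le 0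
    have hs1' : s ≤ 1 := by
      have h1 := hA.w1 z
      nlinarith
    have h3 := (P.qs_mem_Id hs1').mpr h2
    have h4 := (P'.qs_mem_Id hs1').mpr h2
    have h5 := Ideal.sub_mem _ h4 h3
    rw [map_sub, map_sub, h1] at h5
    rwa [sub_sub_sub_cancel_right] at h5
  conn := by
    intro l hB h0 h1
    have hK := hA.bx.gen s hs hs1.le
    rw [← hK] at h0 h1 ⊢
    have ho1 : vd o 1 ⊔ c.K s ≤ c.O :=
      sup_le ho ((hA.bx.pt s hs hs1.le).trans (sup_le_sup (vd_mono c.q hs1.le) (vd_mono c.R hs1.le)))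
    refine (nlk_corner c hA hs hs1).conn ho1 (fun i => ?_) l hB h0 h1
    exact sup_le (le_sup_left.trans (le_sup_left (a := c.xi i))) (sup_le ((hF i).trans le_sup_left)
      (hxi i))

end corner

end

end Pool.Agent.Helper92.WK
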