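import Pool.Agent.Helper92.WK.St

/-!
# Walks (row W1): one more step of a walk
-/

set_option autoImplicit false

namespace Pool.Agent.Helper92.WK

open Finset Filter Topology Pool.Agent.Helper69.RK Pool.Agent.Helper31.EC Pool.Agent.Helper40.EL
open Pool.Agent.Helper31.EC.Sp Pool.Agent.Helper31.EC.QS

noncomputable section

variable {S : Sp} {ι β γ ο : Type} [Fintype β] [Fintype γ] [Fintype ο] {φ : ι → Type} [∀ i, Fintype (φ i)]

namespace WI

variable (D : WI S ι β γ ο φ)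

/-- literal variable of the refreshments -/
def uo : ∀ k, (S.F k).Ω → (Fin (Fintype.card ο) → ℤ) × (Fin (Fintype.card γ) → ℤ) :=
  fun k ω => (lit D.o k ω, lit D.g k ω)

/-- literal variable of the edges -/
def ui (i : ι) : ∀ k, (S.F k).Ω → D.al i k × ((Fin (Fintype.card (φ i)) → ℤ) × (Fin (Fintype.card γ) → ℤ)) :=
  fun k ω => (D.bV i k ω, (lit (D.F i) k ω, lit D.g k ω))

theorem uo_bdd : Sp.Bdd D.uo := (lit_bdd D.o).pair (lit_bdd D.g)

theorem ui_bdd (i : ι) : Sp.Bdd (D.ui i) := (D.bdd i).pair ((lit_bdd (D.F i)).pair (lit_bdd D.g))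

theorem io_uo : Sp.io D.uo = vd D.o 1 ⊔ vd D.g 1 := by
  have h1 := Sp.io_pair (lit_bdd D.o) (lit_bdd D.g)
  rw [io_lit, io_lit] at h1
  exact h1

theorem io_ui (i : ι) : Sp.io (D.ui i) = Sp.io (D.bV i) ⊔ (vd (D.F i) 1 ⊔ vd D.g 1) := by
  have h1 := Sp.io_pair (D.bdd i) ((lit_bdd (D.F i)).pair (lit_bdd D.g))
  rw [Sp.io_pair (lit_bdd (D.F i)) (lit_bdd D.g), io_lit, io_lit] at h1
  exact h1

end WI

/-- a copy over a literal variable agrees literally -/
theorem join_lit {W : Sp} (p : Pj W S) {α : ℕ → Type} (U : ∀ k, (S.F k).Ω → α k) :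
    Lit U ((p.join U).p1.comp p) (p.join U).p2 := fun k w hw => p.join_supp U k w hw

theorem Lit.comp {W R : Sp} (c : Pj R W) {α : ℕ → Type} {V : ∀ k, (S.F k).Ω → α k} {P P' : Pj W S}
    (h : Lit V P P') : Lit V (c.comp P) (c.comp P') := fun k w hw => h k _ (c.supp k w hw)

namespace Wd

variable {D : WI S ι β γ ο φ} (w : Wd D) (i : ι)

/-- the space of the refreshed point -/
def rf : AmD w.W S := w.pe.join D.uo

/-- the space of the next point -/
def eg : AmD w.rf.sp S := w.rf.p2.join (D.ui i)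

/-- projection to the old space -/
def cc : Pj (w.eg i).sp w.W := (w.eg i).p1.comp w.rf.p1

theorem rf_o (a : ο) : w.rf.p2.qs (D.o a) = w.rf.p1.qs (w.pe.qs (D.o a)) := by
  have h1 : Lit (lit D.o) (w.rf.p1.comp w.pe) w.rf.p2 := fun k x hx =>
    (Prod.mk.inj (join_lit w.pe D.uo k x hx)).1
  rw [← Pj.comp_qs, ← h1.qs a]

theorem rf_g (a : γ) : w.rf.p2.qs (D.g a) = w.rf.p1.qs (w.pe.qs (D.g a)) := by
  have h1 : Lit (lit D.g) (w.rf.p1.comp w.pe) w.rf.p2 := fun k x hx =>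
    (Prod.mk.inj (join_lit w.pe D.uo k x hx)).2
  rw [← Pj.comp_qs, ← h1.qs a]

theorem eg_V : Lit (D.bV i) ((w.eg i).p1.comp w.rf.p2) (w.eg i).p2 := fun k x hx =>
  (Prod.mk.inj (join_lit w.rf.p2 (D.ui i) k x hx)).1

theorem eg_F (a : φ i) : (w.eg i).p2.qs (D.F i a) = (w.eg i).p1.qs (w.rf.p2.qs (D.F i a)) := by
  have h1 : Lit (lit (D.F i)) ((w.eg i).p1.comp w.rf.p2) (w.eg i).p2 := fun k x hx =>
    (Prod.mk.inj (Prod.mk.inj (join_lit w.rf.p2 (D.ui i) k x hx)).2).1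
  rw [← Pj.comp_qs, ← h1.qs a]

theorem eg_g (a : γ) : (w.eg i).p2.qs (D.g a) = (w.eg i).p1.qs (w.rf.p2.qs (D.g a)) := by
  have h1 : Lit (lit D.g) ((w.eg i).p1.comp w.rf.p2) (w.eg i).p2 := fun k x hx =>
    (Prod.mk.inj (Prod.mk.inj (join_lit w.rf.p2 (D.ui i) k x hx)).2).2
  rw [← Pj.comp_qs, ← h1.qs a]

/-- arrival points of the longer walk -/
def nP : Fin (w.K + 1 + 1) → Pj (w.eg i).sp S :=
  Fin.snoc (α := fun _ => Pj (w.eg i).sp S) (fun a => (w.cc i).comp (w.P a)) (w.eg i).p2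

/-- departure points of the longer walk -/
def nP' : Fin (w.K + 1) → Pj (w.eg i).sp S :=
  Fin.snoc (α := fun _ => Pj (w.eg i).sp S) (fun a => (w.cc i).comp (w.P' a)) ((w.eg i).p1.comp w.rf.p2)

/-- word of the longer walk -/
def nσ : Fin (w.K + 1) → ι := Fin.snoc (α := fun _ => ι) w.σ i

theorem nP_last : w.nP i (Fin.last _) = (w.eg i).p2 := by
  unfold nP
  rw [Fin.snoc_last]

theorem nP_cast (a : Fin (w.K + 1)) : w.nP i a.castSucc = (w.cc i).comp (w.P a) := by
  unfold nP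
  rw [Fin.snoc_castSucc]

theorem nP'_last : w.nP' i (Fin.last _) = (w.eg i).p1.comp w.rf.p2 := by
  unfold nP'
  rw [Fin.snoc_last]

theorem nP'_cast (a : Fin w.K) : w.nP' i a.castSucc = (w.cc i).comp (w.P' a) := by
  unfold nP'
  rw [Fin.snoc_castSucc]

theorem nσ_last : w.nσ i (Fin.last _) = i := by
  unfold nσ
  rw [Fin.snoc_last]

theorem nσ_cast (a : Fin w.K) : w.nσ i a.castSucc = w.σ a := by
  unfold nσ
  rw [Fin.snoc_castSucc]

/-- THE LONGER WALK -/
def ext : Wd D where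
  W := (w.eg i).sp
  K := w.K + 1
  σ := w.nσ i
  P := w.nP i
  P' := w.nP' i
  ho := by
    intro j a
    induction j using Fin.lastCases with
    | last =>
      rw [nP'_last, nP_cast, Pj.comp_qs, Pj.comp_qs, rf_o]
      exact (Pj.comp_qs (w.eg i).p1 w.rf.p1 (w.pe.qs (D.o a))).symm
    | cast j => rw [nP'_cast, nP_cast, Pj.comp_qs, Pj.comp_qs, w.ho j a]
  hg0 := by
    intro j a
    induction j using Fin.lastCases with
    | last =>
      rw [nP'_last, nP_cast, Pj.comp_qs, Pj.comp_qs, rf_g]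
      exact (Pj.comp_qs (w.eg i).p1 w.rf.p1 (w.pe.qs (D.g a))).symm
    | cast j => rw [nP'_cast, nP_cast, Pj.comp_qs, Pj.comp_qs, w.hg0 j a]
  hV := by
    intro j
    induction j using Fin.lastCases with
    | last =>
      rw [nP'_last, Fin.succ_last, nP_last, nσ_last]
      exact w.eg_V i
    | cast j =>
      rw [nP'_cast, Fin.succ_castSucc, nP_cast, nσ_cast]
      exact (w.hV j).comp (w.cc i)
  hF := by
    intro j
    induction j using Fin.lastCases with
    | last =>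
      rw [nP'_last, Fin.succ_last, nP_last, nσ_last]
      intro a
      rw [Pj.comp_qs, w.eg_F i a]
    | cast j =>
      rw [nP'_cast, Fin.succ_castSucc, nP_cast, nσ_cast]
      intro a
      rw [Pj.comp_qs, Pj.comp_qs, w.hF j a]
  hg := by
    intro j a
    induction j using Fin.lastCases with
    | last => rw [nP'_last, Fin.succ_last, nP_last, Pj.comp_qs, w.eg_g i a]
    | cast j => rw [nP'_cast, Fin.succ_castSucc, nP_cast, Pj.comp_qs, Pj.comp_qs, w.hg j a]

theorem ext_p0 : (w.ext i).p0 = (w.cc i).comp w.p0 := w.nP_cast i 0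

theorem ext_pe : (w.ext i).pe = (w.eg i).p2 := w.nP_last i

theorem ext_om : (w.ext i).om = (w.cc i).map w.om ⊔
    ((w.eg i).p1.map (w.rf.p2.map (Sp.io (D.bV i))) ⊔ (w.eg i).p2.map (dg D.t 1)) := by
  have h1 : (w.ext i).om = (Finset.univ.sup fun j : Fin (w.K + 1) => (w.nP' i j).map (Sp.io (D.bV (w.nσ i j))) ⊔
      dg ((w.nP i j.succ).qs D.t) 1) := rfl
  rw [h1, sup_univ_succ]
  congr 1
  · unfold om
    rw [sup_map]
    congr 1
    funext j
    rw [nP'_cast, Fin.succ_castSucc, nP_cast, nσ_cast, Pj.comp_map, Pj.map_sup, Pj.comp_qs]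
    congr 1
    exact ((w.cc i).qs_dg _ _)
  · rw [nP'_last, Fin.succ_last, nP_last, nσ_last, Pj.comp_map]
    congr 1
    exact ((w.eg i).p2.qs_dg _ _)

end Wd

end

end Pool.Agent.Helper92.WK
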