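import Pool.Agent.Helper56.MT.M5
import Pool.Agent.Helper31.EC.Cpy

/-!
# Walks (row W1): labels of extensions, one literal step, mixing relative to a common variable

The label of an extension `p : W -> S` is a partition of `W`.  A step replaces the point of `S` by a copy over a
literal variable `U`.  The information of the label about the point beyond a variable `G` (a function of `U`) drops by
the leak at `U`.  If every label without leaks at the conditions has no leak at `G` then walks over the conditions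
forget the label beyond `G`.
-/

set_option autoImplicit false

namespace Pool.Agent.Helper92.WK

open Finset Filter Topology Pool.Agent.Helper69.RK Pool.Agent.Helper31.EC Pool.Agent.Helper40.EL

noncomputable section

variable {S : Sp}

/-- the label of an extension -/
def lab {W : Sp} (p : Pj W S) (V : ∀ k, Setoid (W.F k).Ω) : Lab S := fun k => ⟨W.F k, p.fp k, p.hn k, V k⟩

/-- the amalgam at one index -/
def fam {W : Sp} (D : AmD W S) (k : ℕ) : FAm (W.F k) (S.F k) :=
  ⟨D.α k, D.f k, D.g k, D.law k, D.Zr k, D.hZ1 k, D.hZ2 k⟩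

theorem I_split {L : Type*} [PM L] {v o a x : L} (hx : x ≤ a) (ha : a ≤ o) : I v o x = I v a x + I v o a := by
  have h1 := I_chain_right v a o x
  rw [sup_eq_right.mpr ha, sup_eq_left.mpr hx] at h1
  exact h1

section step

variable {W : Sp} (p : Pj W S) {α : ℕ → Type} (U : ∀ k, (S.F k).Ω → α k) (V : ∀ k, Setoid (W.F k).Ω)

/-- the partition after a step -/
def stV (k : ℕ) : Setoid (((p.join U).sp.F k)).Ω := Setoid.comap Prod.fst (V k)

theorem fam_g (k : ℕ) : fc (Setoid.ker (fam (p.join U) k).g) = fc (F := S.F k) (Setoid.ker (U k)) := by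
  apply le_antisymm
  · apply fc_le
    intro ω ω' _ _ hZ h
    show (U k ω, Quotient.mk (S.F k).Z ω) = (U k ω', Quotient.mk (S.F k).Z ω')
    rw [Prod.mk.injEq]
    exact ⟨h, Quotient.sound hZ⟩
  · apply fc_le
    intro ω ω' _ _ _ h
    have h1 : (U k ω, Quotient.mk (S.F k).Z ω) = (U k ω', Quotient.mk (S.F k).Z ω') := h
    rw [Prod.mk.injEq] at h1
    exact h1.1

theorem fam_f (k : ℕ) : fc (Setoid.ker (fam (p.join U) k).f) = (p.fp k).map (fc (Setoid.ker (U k))) := by
  rw [(p.fp k).map_fc]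
  apply le_antisymm
  · apply fc_le
    intro ω ω' h h' hZ e
    show (U k (p.π k ω), Quotient.mk (S.F k).Z (p.π k ω)) = (U k (p.π k ω'), Quotient.mk (S.F k).Z (p.π k ω'))
    rw [Prod.mk.injEq]
    exact ⟨e, Quotient.sound ((p.hZ k ω ω' h h').mp hZ)⟩
  · apply fc_le
    intro ω ω' _ _ _ e
    have h2 : (U k (p.π k ω), Quotient.mk (S.F k).Z (p.π k ω)) =
      (U k (p.π k ω'), Quotient.mk (S.F k).Z (p.π k ω')) := e
    rw [Prod.mk.injEq] at h2
    exact h2.1

theorem fam_common (k : ℕ) : (fam (p.join U) k).p1.map ((p.fp k).map (fc (Setoid.ker (U k)))) =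
    (fam (p.join U) k).p2.map (fc (Setoid.ker (U k))) := by
  have h1 := (fam (p.join U) k).common
  rw [fam_f, fam_g] at h1
  exact h1

theorem fam_indep (k : ℕ) (y : FL (W.F k)) (z : FL (S.F k)) :
    I ((fam (p.join U) k).p1.map y) ((fam (p.join U) k).p2.map z)
      ((fam (p.join U) k).p1.map ((p.fp k).map (fc (Setoid.ker (U k))))) = 0 := by
  have h1 := (fam (p.join U) k).indep y z
  rw [fam_f] at h1
  exact h1

/-- functions of the literal variable are common -/
theorem fam_common' (k : ℕ) (X : Setoid (S.F k).Ω) (hX : ∀ ω ω', (S.F k).μ ω ≠ 0 → (S.F k).μ ω' ≠ 0 →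
    U k ω = U k ω' → X ω ω') :
    (fam (p.join U) k).p1.map ((p.fp k).map (fc X)) = (fam (p.join U) k).p2.map (fc X) := by
  have key : ∀ w : (W.F k).Ω × (S.F k).Ω, (fam (p.join U) k).sp.μ w ≠ 0 → X (p.π k w.1) w.2 := by
    intro w hw
    obtain ⟨a, b, c⟩ := (fam (p.join U) k).supp w hw
    have a' : (U k (p.π k w.1), Quotient.mk (S.F k).Z (p.π k w.1)) = (U k w.2, Quotient.mk (S.F k).Z w.2) := a
    exact hX _ _ (p.supp k _ b) c (Prod.mk.inj a').1
  apply le_antisymm
  · apply fc_le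
    intro w w' h h' _ e
    have e' : X w.2 w'.2 := e
    exact X.trans' (key w h) (X.trans' e' (X.symm' (key w' h')))
  · apply fc_le
    intro w w' h h' _ e
    have e' : X (p.π k w.1) (p.π k w'.1) := e
    exact X.trans' (X.symm' (key w h)) (X.trans' e' (key w' h'))

theorem fam_top (k : ℕ) : (fam (p.join U) k).p2.top = (fam (p.join U) k).p2.map (fc (⊥ : Setoid (S.F k).Ω)) := by
  rw [(fam (p.join U) k).p2.map_fc]
  rfl

/-- no leak after the step -/
theorem leak_zero (k : ℕ) : (lab (p.join U).p2 (stV p U V) k).leak (fc (Setoid.ker (U k))) = 0 := by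
  have h1 : (lab (p.join U).p2 (stV p U V) k).leak (fc (Setoid.ker (U k))) =
      I ((fam (p.join U) k).p1.map (fc (V k))) (fam (p.join U) k).p2.top
        ((fam (p.join U) k).p2.map (fc (Setoid.ker (U k)))) := rfl
  rw [h1, fam_top, ← fam_common]
  exact fam_indep p U k _ _

/-- the leak at a function of the literal variable after the step -/
theorem leak_step (k : ℕ) (X : Setoid (S.F k).Ω) (hX : ∀ ω ω', (S.F k).μ ω ≠ 0 → (S.F k).μ ω' ≠ 0 →
    U k ω = U k ω' → X ω ω') :
    (lab (p.join U).p2 (stV p U V) k).leak (fc X) =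
      (lab p V k).leak (fc X) - (lab p V k).leak (fc (Setoid.ker (U k))) := by
  have hXA : (fc X : FL (S.F k)) ≤ fc (Setoid.ker (U k)) := fc_le fun ω ω' h h' _ e => hX ω ω' h h' e
  set D := fam (p.join U) k with hD
  have h0 := leak_zero p U V k
  have e1 : (lab (p.join U).p2 (stV p U V) k).leak (fc X) =
      I (D.p1.map (fc (V k))) D.p2.top (D.p2.map (fc X)) := rfl
  have e2 : (lab (p.join U).p2 (stV p U V) k).leak (fc (Setoid.ker (U k))) =
      I (D.p1.map (fc (V k))) D.p2.top (D.p2.map (fc (Setoid.ker (U k)))) := rfl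
  have e3 : (lab p V k).leak (fc X) = I (fc (V k)) (p.fp k).top ((p.fp k).map (fc X)) := rfl
  have e4 : (lab p V k).leak (fc (Setoid.ker (U k))) =
      I (fc (V k)) (p.fp k).top ((p.fp k).map (fc (Setoid.ker (U k)))) := rfl
  rw [e2] at h0
  rw [e1, e3, e4, I_split (D.p2.map_mono hXA) (D.p2.map_le_top _), h0, add_zero,
    I_split ((p.fp k).map_mono hXA) ((p.fp k).map_le_top _), ← fam_common' p U k X hX,
    ← fam_common p U k, D.p1.I_map]
  ring

end step

/-- APPROXIMATE Markov labels (with a property `Pr`) with a large leak at `G` converge to Markov labels -/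
theorem approxG {ι : Type} [Finite ι] {A : ι → Part S} (G : Part S) (Pr : ∀ k, FLab (S.F k) → Prop)
    (l : ℕ → Lab S) (hP : ∀ j, ∀ᶠ k in UF, Pr k (l j k)) (e : ℕ → ℝ)
    (he : Tendsto e atTop (𝓝 0)) (v : ℝ)
    (h1 : ∀ i j, ∀ᶠ k in UF, (l j k).leak (A i k) / (S.F k).n ≤ e j)
    (h3 : ∀ j, ∀ᶠ k in UF, v - e j ≤ (l j k).leak (G k) / (S.F k).n) :
    ∃ y : Lab S, (∀ᶠ k in UF, Pr k (y k)) ∧ y.DMf A ∧ (Nul S (fun k => (y k).leak (G k)) → v ≤ 0) := by
  have hG : ∀ j, ∀ᶠ k in UF, (∀ i, (l j k).leak (A i k) / (S.F k).n ≤ e j) ∧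
      v - e j ≤ (l j k).leak (G k) / (S.F k).n ∧ Pr k (l j k) := by
    intro j
    refine Filter.Eventually.and ?_ ((h3 j).and (hP j))
    rw [Filter.eventually_all]
    exact fun i => h1 i j
  obtain ⟨y, j, hj, hy, hG'⟩ := dia' (X := fun k => FLab (S.F k)) l (fun j k x =>
      (∀ i, x.leak (A i k) / (S.F k).n ≤ e j) ∧ v - e j ≤ x.leak (G k) / (S.F k).n ∧ Pr k x) hG
  have h0 : Tendsto (fun k => e (j k)) UF (𝓝 0) := he.comp hj
  refine ⟨y, by filter_upwards [hG'] with k hk using hk.2.2, fun i => ?_, fun hn => ?_⟩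
  · refine tendsto_of_tendsto_of_tendsto_of_le_of_le' tendsto_const_nhds h0 ?_ ?_
    · exact Eventually.of_forall fun k => div_nonneg ((y k).leak_nonneg _) (S.F k).pos.le
    · filter_upwards [hG'] with k hk using hk.1 i
  · have h4 : Tendsto (fun k => v - e (j k)) UF (𝓝 v) := by
      have := h0.const_sub v
      rwa [sub_zero] at this
    exact le_of_tendsto_of_tendsto h4 hn (by filter_upwards [hG'] with k hk using hk.2.1)

/-- MIXING relative to `G`, abstract form: `X` = the walks, `L x` the label of a walk; every walk can be refreshed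
(label `y`) and then continued by every type -/
theorem mix_rel {ι : Type} [Finite ι] [Nonempty ι] {X : Type 1} [Nonempty X] (L : X → Lab S) (A : Option ι → Part S)
    (G : Part S) (Pr : ∀ k, FLab (S.F k) → Prop)
    (hU : ∀ x, UB (fun k => ((L x) k).info / (S.F k).n))
    (hst : ∀ x, ∃ y : Lab S, UB (fun k => (y k).info / (S.F k).n) ∧ Lab.lk y (A none) ≤ 0 ∧
      Lab.lk y G ≤ Lab.lk (L x) G ∧ (∀ᶠ k in UF, Pr k (y k)) ∧
      ∀ i, ∃ x', Lab.lk (L x') G ≤ Lab.lk y G - Lab.lk y (A (some i)))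
    (hc : ∀ y : Lab S, (∀ᶠ k in UF, Pr k (y k)) → y.DMf A → Nul S (fun k => (y k).leak (G k)))
    (ε : ℝ) (hε : 0 < ε) :
    ∃ x, Lab.lk (L x) G < ε := by
  set I0 : Set ℝ := Set.range fun x => Lab.lk (L x) G with hI0
  have hbd : BddBelow I0 := ⟨0, by rintro _ ⟨x, rfl⟩; exact Lab.lk_nonneg (hU x) G⟩
  have hne : I0.Nonempty := Set.range_nonempty _
  have hj : ∀ j : ℕ, ∃ x, Lab.lk (L x) G < sInf I0 + 1 / ((j : ℝ) + 1) := by
    intro j
    have h2 : sInf I0 < sInf I0 + 1 / ((j : ℝ) + 1) := by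
      have : (0 : ℝ) < 1 / ((j : ℝ) + 1) := by positivity
      linarith
    obtain ⟨_, ⟨x, rfl⟩, hx⟩ := exists_lt_of_csInf_lt hne h2
    exact ⟨x, hx⟩
  choose x hx using hj
  choose y hy1 hy2 hy3 hyP hy4 using fun j => hst (x j)
  have hlow : ∀ j, sInf I0 ≤ Lab.lk (y j) G := by
    intro j
    obtain ⟨i⟩ := ‹Nonempty ι›
    obtain ⟨x', hx'⟩ := hy4 j i
    have h1 : sInf I0 ≤ Lab.lk (L x') G := csInf_le hbd ⟨x', rfl⟩
    have h2 := Lab.lk_nonneg (hy1 j) (A (some i))
    linarith
  have hlk : ∀ i j, Lab.lk (y j) (A i) ≤ 1 / ((j : ℝ) + 1) := by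
    intro i j
    have hpos : (0 : ℝ) < 1 / ((j : ℝ) + 1) := by positivity
    cases i with
    | none => exact (hy2 j).trans hpos.le
    | some i =>
      obtain ⟨x', hx'⟩ := hy4 j i
      have h1 : sInf I0 ≤ Lab.lk (L x') G := csInf_le hbd ⟨x', rfl⟩
      have h2 := hx j
      have h3 := hy3 j
      linarith
  obtain ⟨z, hzP, hz, hz'⟩ := approxG (A := A) G Pr y hyP (fun j => 2 * (1 / ((j : ℝ) + 1))) (by
      have := (tendsto_one_div_add_atTop_nhds_zero_nat (𝕜 := ℝ)).const_mul 2
      rwa [mul_zero] at this) (sInf I0) (by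
      intro i j
      have hpos : (0 : ℝ) < 1 / ((j : ℝ) + 1) := by positivity
      have h4 : Lab.lk (y j) (A i) < 2 * (1 / ((j : ℝ) + 1)) := by
        have := hlk i j
        linarith
      filter_upwards [eventually_lt_of_ul_lt (Lab.leak_UB (hy1 j) _) h4] with k hk using hk.le) (by
      intro j
      have hpos : (0 : ℝ) < 1 / ((j : ℝ) + 1) := by positivity
      have h4 : sInf I0 - 2 * (1 / ((j : ℝ) + 1)) < Lab.lk (y j) G := by
        have := hlow j
        linarith
      filter_upwards [eventually_gt_of_lt_ul (Lab.leak_UB (hy1 j) _) h4] with k hk using hk.le)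
  have h5 : sInf I0 ≤ 0 := hz' (hc z hzP hz)
  have h6 : sInf I0 < ε := by linarith
  obtain ⟨_, ⟨x, rfl⟩, hx⟩ := exists_lt_of_csInf_lt hne h6
  exact ⟨x, hx⟩

end

end Pool.Agent.Helper92.WK
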