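import Pool.Agent.Helper92.WK.Ext

/-!
# Walks (row W1): independence of the base walk
-/

set_option autoImplicit false

namespace Pool.Agent.Helper92.WK

open Finset Filter Topology Pool.Agent.Helper69.RK Pool.Agent.Helper31.EC Pool.Agent.Helper40.EL
open Pool.Agent.Helper31.EC.Sp Pool.Agent.Helper31.EC.QS

noncomputable section

variable {S : Sp} {ι β γ ο : Type} [Fintype β] [Fintype γ] [Fintype ο] {φ : ι → Type} [∀ i, Fintype (φ i)]

namespace Wd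

variable {D : WI S ι β γ ο φ} (w : Wd D) (i : ι)

theorem rf_common : w.rf.p1.map (w.pe.map (vd D.o 1 ⊔ vd D.g 1)) = w.rf.p2.map (vd D.o 1 ⊔ vd D.g 1) := by
  have h1 := (join_lit w.pe D.uo).map D.uo_bdd
  rw [Pj.comp_map, D.io_uo] at h1
  exact h1

theorem rf_indep (x : w.W.L) (y : S.L) :
    I (w.rf.p1.map x) (w.rf.p2.map y) (w.rf.p1.map (w.pe.map (vd D.o 1 ⊔ vd D.g 1))) = 0 := by
  have h1 := w.pe.join_indep D.uo D.uo_bdd x y
  rw [D.io_uo] at h1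
  exact h1

theorem eg_common : (w.eg i).p1.map (w.rf.p2.map (Sp.io (D.bV i) ⊔ (vd (D.F i) 1 ⊔ vd D.g 1))) =
    (w.eg i).p2.map (Sp.io (D.bV i) ⊔ (vd (D.F i) 1 ⊔ vd D.g 1)) := by
  have h1 := (join_lit w.rf.p2 (D.ui i)).map (D.ui_bdd i)
  rw [Pj.comp_map, D.io_ui] at h1
  exact h1

theorem eg_indep (x : w.rf.sp.L) (y : S.L) : I ((w.eg i).p1.map x) ((w.eg i).p2.map y)
    ((w.eg i).p1.map (w.rf.p2.map (Sp.io (D.bV i) ⊔ (vd (D.F i) 1 ⊔ vd D.g 1)))) = 0 := by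
  have h1 := w.rf.p2.join_indep (D.ui i) (D.ui_bdd i) x y
  rw [D.io_ui] at h1
  exact h1

theorem rf_q : w.rf.p2.map (vd D.q 1) = w.rf.p1.map (w.pe.map (vd D.q 1)) := by
  rw [← w.rf.p2.qs_vd, ← w.pe.qs_vd, ← w.rf.p1.qs_vd]
  congr 1
  funext a
  obtain ⟨c, hc⟩ := D.qo a
  rw [hc]
  exact w.rf_o c

theorem eg_b : (w.eg i).p1.map (w.rf.p2.map (Sp.io (D.bV i))) = (w.eg i).p2.map (Sp.io (D.bV i)) := by
  have h1 := (w.eg_V i).map (D.bdd i)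
  rw [Pj.comp_map] at h1
  exact h1

/-- the refreshed line is independent of the past given the base point -/
theorem rf_line (x : w.W.L) :
    I (w.rf.p2.map (Sp.io (D.bV i))) (w.rf.p1.map x) (w.rf.p1.map (w.pe.map (vd D.q 1))) = 0 := by
  have hqo : vd D.q 1 ≤ vd D.o 1 ⊔ vd D.g 1 := by
    refine le_trans ?_ le_sup_left
    rw [vd_le]
    intro a
    obtain ⟨c, hc⟩ := D.qo a
    rw [hc]
    exact dg_le_vd D.o 1 c
  have h1 : I (w.rf.p2.map (Sp.io (D.bV i))) (w.rf.p2.map (vd D.o 1 ⊔ vd D.g 1)) (w.rf.p2.map (vd D.q 1)) = 0 := by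
    rw [w.rf.p2.I_map]
    exact D.ind i
  have h2 := w.rf_indep x (Sp.io (D.bV i))
  rw [I_comm] at h2
  have h3 := I_chain_right (w.rf.p2.map (Sp.io (D.bV i))) (w.rf.p2.map (vd D.o 1 ⊔ vd D.g 1)) (w.rf.p1.map x)
    (w.rf.p2.map (vd D.q 1))
  rw [h1, sup_eq_left.mpr (w.rf.p2.map_mono hqo), ← w.rf_common, h2, add_zero] at h3
  have h4 : I (w.rf.p2.map (Sp.io (D.bV i))) (w.rf.p1.map x) (w.rf.p2.map (vd D.q 1)) ≤
      I (w.rf.p2.map (Sp.io (D.bV i))) (w.rf.p1.map (w.pe.map (vd D.o 1 ⊔ vd D.g 1)) ⊔ w.rf.p1.map x)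
        (w.rf.p2.map (vd D.q 1)) := I_mono_right (le_sup_right.trans le_sup_left)
  rw [← w.rf_q]
  exact le_antisymm (by linarith) (I_nonneg _ _ _)

/-- the new height is real beyond the level `s` over the past -/
theorem eg_t (x : w.rf.sp.L) : 1 - D.s ≤ h ((w.eg i).p2.map (dg D.t 1)) ((w.eg i).p1.map x) := by
  have h1 := w.eg_indep i x (dg D.t 1)
  rw [I_zero_iff_h'] at h1
  rw [w.eg_common i, (w.eg i).p2.h_map] at h1
  have h2 := D.treal i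
  have h3 : h ((w.eg i).p2.map (dg D.t 1)) ((w.eg i).p1.map x ⊔
      (w.eg i).p2.map (Sp.io (D.bV i) ⊔ (vd (D.F i) 1 ⊔ vd D.g 1))) ≤
      h ((w.eg i).p2.map (dg D.t 1)) ((w.eg i).p1.map x) := h_anti le_sup_left
  linarith

/-- the new height is known up to the level `s` -/
theorem eg_t' (C : (w.eg i).sp.L) (hC : (w.cc i).map (w.pe.map (vd D.q 1)) ≤ C) :
    h ((w.eg i).p2.map (dg D.t 1)) C ≤ 1 - D.s := by
  have h1 : (w.eg i).p2.qs D.t - ((w.cc i).comp w.pe).qs D.t ∈ Id (w.eg i).sp D.s := by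
    apply D.tbox
    intro a
    rw [Pj.comp_qs, w.eg_g i a, w.rf_g a]
    exact Pj.comp_qs (w.eg i).p1 w.rf.p1 (w.pe.qs (D.g a))
  have h2 := dg_eq_of_sub_mem h1 le_rfl D.s1
  have h3 : dg ((w.eg i).p2.qs D.t) D.s ≤ C := by
    rw [h2]
    refine (dg_mono _ D.s1).trans ?_
    rw [((w.cc i).comp w.pe).qs_dg, Pj.comp_map]
    exact ((w.cc i).map_mono (w.pe.map_mono D.tq)).trans hC
  have h4 := h_dg_dg ((w.eg i).p2.qs D.t) D.s1
  rw [(w.eg i).p2.qs_dg] at h4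
  exact (h_anti h3).trans h4

theorem ok_ext_ind (hw : w.Ok) : I ((w.cc i).map w.om ⊔ ((w.eg i).p1.map (w.rf.p2.map (Sp.io (D.bV i))) ⊔
    (w.eg i).p2.map (dg D.t 1))) (((w.cc i).comp w.p0).map (vd D.o 1 ⊔ vd D.g 1))
    (((w.cc i).comp w.p0).map (vd D.q 1)) = 0 := by
  rw [Pj.comp_map, Pj.comp_map, I_chain]
  have h1 : I ((w.cc i).map w.om) ((w.cc i).map (w.p0.map (vd D.o 1 ⊔ vd D.g 1)))
      ((w.cc i).map (w.p0.map (vd D.q 1))) = 0 := by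
    rw [(w.cc i).I_map]
    exact hw.ind
  rw [h1, zero_add, I_chain, ← (w.cc i).map_sup]
  -- the line
  have h2 : I ((w.eg i).p1.map (w.rf.p2.map (Sp.io (D.bV i))))
      ((w.cc i).map (w.p0.map (vd D.o 1 ⊔ vd D.g 1))) ((w.cc i).map (w.om ⊔ w.p0.map (vd D.q 1))) = 0 := by
    unfold cc
    rw [Pj.comp_map, Pj.comp_map, (w.eg i).p1.I_map]
    have h3 := w.rf_line i ((w.om ⊔ w.p0.map (vd D.q 1)) ⊔ w.p0.map (vd D.o 1 ⊔ vd D.g 1))
    rw [w.rf.p1.map_sup, I_chain_right, sup_eq_left.mpr (w.rf.p1.map_mono hw.qk)] at h3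
    have h4 := I_nonneg (w.rf.p2.map (Sp.io (D.bV i))) (w.rf.p1.map (w.om ⊔ w.p0.map (vd D.q 1)))
      (w.rf.p1.map (w.pe.map (vd D.q 1)))
    have h5 := I_nonneg (w.rf.p2.map (Sp.io (D.bV i))) (w.rf.p1.map (w.p0.map (vd D.o 1 ⊔ vd D.g 1)))
      (w.rf.p1.map (w.om ⊔ w.p0.map (vd D.q 1)))
    linarith
  rw [h2, zero_add, I_eq]
  -- the height
  have h6 : h ((w.eg i).p2.map (dg D.t 1)) ((w.eg i).p1.map (w.rf.p2.map (Sp.io (D.bV i))) ⊔
      (w.cc i).map (w.om ⊔ w.p0.map (vd D.q 1))) ≤ 1 - D.s :=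
    w.eg_t' i _ (((w.cc i).map_mono hw.qk).trans le_sup_right)
  have h7 : 1 - D.s ≤ h ((w.eg i).p2.map (dg D.t 1)) ((w.cc i).map (w.p0.map (vd D.o 1 ⊔ vd D.g 1)) ⊔
      ((w.eg i).p1.map (w.rf.p2.map (Sp.io (D.bV i))) ⊔ (w.cc i).map (w.om ⊔ w.p0.map (vd D.q 1)))) := by
    have h8 := w.eg_t i (w.rf.p1.map (w.p0.map (vd D.o 1 ⊔ vd D.g 1)) ⊔ (w.rf.p2.map (Sp.io (D.bV i)) ⊔
      w.rf.p1.map (w.om ⊔ w.p0.map (vd D.q 1))))
    rw [(w.eg i).p1.map_sup, (w.eg i).p1.map_sup] at h8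
    unfold cc
    rw [Pj.comp_map, Pj.comp_map]
    exact h8
  have h9 : I ((w.eg i).p2.map (dg D.t 1)) ((w.cc i).map (w.p0.map (vd D.o 1 ⊔ vd D.g 1)))
      ((w.eg i).p1.map (w.rf.p2.map (Sp.io (D.bV i))) ⊔ (w.cc i).map (w.om ⊔ w.p0.map (vd D.q 1))) =
      h ((w.eg i).p2.map (dg D.t 1)) ((w.eg i).p1.map (w.rf.p2.map (Sp.io (D.bV i))) ⊔
      (w.cc i).map (w.om ⊔ w.p0.map (vd D.q 1))) -
      h ((w.eg i).p2.map (dg D.t 1)) ((w.cc i).map (w.p0.map (vd D.o 1 ⊔ vd D.g 1)) ⊔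
      ((w.eg i).p1.map (w.rf.p2.map (Sp.io (D.bV i))) ⊔ (w.cc i).map (w.om ⊔ w.p0.map (vd D.q 1)))) := I_eq _ _ _
  have h10 := I_nonneg ((w.eg i).p2.map (dg D.t 1)) ((w.cc i).map (w.p0.map (vd D.o 1 ⊔ vd D.g 1)))
      ((w.eg i).p1.map (w.rf.p2.map (Sp.io (D.bV i))) ⊔ (w.cc i).map (w.om ⊔ w.p0.map (vd D.q 1)))
  rw [← h9]
  exact le_antisymm (by rw [h9]; linarith) h10

theorem ok_ext (hw : w.Ok) : (w.ext i).Ok := by
  constructor
  · have key2 : I ((w.cc i).map w.om ⊔ ((w.eg i).p1.map (w.rf.p2.map (Sp.io (D.bV i))) ⊔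
        (w.eg i).p2.map (dg D.t 1))) (((w.cc i).comp w.p0).map (vd D.o 1 ⊔ vd D.g 1))
        (((w.cc i).comp w.p0).map (vd D.q 1)) = 0 := w.ok_ext_ind i hw
    rw [ext_om, ext_p0]
    exact key2
  · have key : (w.eg i).p2.map (vd D.q 1) ≤ ((w.cc i).map w.om ⊔ ((w.eg i).p1.map (w.rf.p2.map
        (Sp.io (D.bV i))) ⊔ (w.eg i).p2.map (dg D.t 1))) ⊔ ((w.cc i).comp w.p0).map (vd D.q 1) := by
      refine le_trans ((w.eg i).p2.map_mono (D.qb i)) ?_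
      rw [(w.eg i).p2.map_sup, ← w.eg_b i]
      exact le_sup_right.trans le_sup_left
    rw [ext_om, ext_pe, ext_p0]
    exact key

/-- the walk without steps -/
def nil (D : WI S ι β γ ο φ) : Wd D where
  W := S
  K := 0
  σ := fun j => j.elim0
  P := fun _ => Pj.id S
  P' := fun j => j.elim0
  ho := fun j => j.elim0
  hg0 := fun j => j.elim0
  hV := fun j => j.elim0
  hF := fun j => j.elim0
  hg := fun j => j.elim0

theorem ok_nil : (nil D).Ok := by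
  have h0 : (nil D).om = ⊥ := by
    unfold om
    apply le_antisymm _ bot_le
    apply Finset.sup_le
    intro j _
    exact j.elim0
  constructor
  · rw [h0]
    exact I_zero_of_le_left bot_le
  · exact le_sup_right

end Wd

end

end Pool.Agent.Helper92.WK
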