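import Pool.Agent.Helper92.WK.Mix
import Pool.Agent.Helper19.SP.Walk

/-!
# Walks (row W1): statements

`WI` = the input: types with a literal base line `bV i`, further literal functions `F i` of the type, the literal
label `g` (box), the functions `o` of the point, base coordinates `q`, height `t`.  `Wd` = a walk: arrival points
`P j`, departure points `P' j` (refreshed: the same `o`, `g`), edges `P' j -> P (j+1)` over `bV, F, g`.
-/

set_option autoImplicit false

namespace Pool.Agent.Helper92.WK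

open Finset Filter Topology Pool.Agent.Helper69.RK Pool.Agent.Helper31.EC Pool.Agent.Helper40.EL
open Pool.Agent.Helper31.EC.Sp Pool.Agent.Helper31.EC.QS

noncomputable section

variable {S : Sp}

/-- literal agreement of two points in a variable -/
def Lit {W : Sp} {α : ℕ → Type} (V : ∀ k, (S.F k).Ω → α k) (P P' : Pj W S) : Prop :=
  ∀ k w, (W.F k).μ w ≠ 0 → V k (P.π k w) = V k (P'.π k w)

/-- the literal variable of a finite family of functions -/
def lit {γ : Type} [Fintype γ] (f : γ → QS S) : ∀ k, (S.F k).Ω → (Fin (Fintype.card γ) → ℤ) :=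
  (TR.vec fun i => QS.rep (f ((Fintype.equivFin γ).symm i))).cellv 1

theorem lit_bdd {γ : Type} [Fintype γ] (f : γ → QS S) : Sp.Bdd (lit f) := VV.bdd _ 1

theorem io_lit {γ : Type} [Fintype γ] (f : γ → QS S) : Sp.io (lit f) = vd f 1 := by
  have h0 : Sp.io (lit f) = (TR.vec fun i => QS.rep (f ((Fintype.equivFin γ).symm i))).dg 1 := rfl
  have h1 : vd (fun i => f ((Fintype.equivFin γ).symm i)) 1 = vd f 1 := vd_equiv (Fintype.equivFin γ).symm f 1
  rw [h0, TR.vec_dg_eq, ← h1]
  unfold QS.vd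
  congr 1
  funext i
  show TR.dg (QS.rep (f ((Fintype.equivFin γ).symm i))) 1 = dg (f ((Fintype.equivFin γ).symm i)) 1
  rw [← QS.dg_mk _ le_rfl, QS.mk_rep]

theorem Lit.qs {W : Sp} {P P' : Pj W S} {γ : Type} [Fintype γ] {f : γ → QS S} (h : Lit (lit f) P P') (a : γ) :
    P.qs (f a) = P'.qs (f a) := by
  obtain ⟨i, rfl⟩ := (Fintype.equivFin γ).symm.surjective a
  rw [← QS.mk_rep (f ((Fintype.equivFin γ).symm i))]
  show QS.mk (P.tr (QS.rep (f ((Fintype.equivFin γ).symm i)))) = QS.mk (P'.tr (QS.rep (f ((Fintype.equivFin γ).symm i))))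
  rw [QS.mk_eq]
  refine ⟨fun _ _ => True, fun _ => 1, Sp.Typ_true, Sp.Sub_const _ zero_le_one,
    Eventually.of_forall fun k w hw _ => ?_⟩
  have h1 := h k w hw
  have h2 := (TR.vec fun i => QS.rep (f ((Fintype.equivFin γ).symm i))).cellv_close 1 k (P.π k w) (P'.π k w) h1 i
  have h3 : W.dl 1 k = S.dl 1 k := by
    unfold Sp.dl
    rw [P.hn k]
  rw [one_mul, h3]
  exact h2

theorem Lit.map {W : Sp} {P P' : Pj W S} {α : ℕ → Type} {V : ∀ k, (S.F k).Ω → α k} (hV : Sp.Bdd V)
    (h : Lit V P P') : P.map (Sp.io V) = P'.map (Sp.io V) := by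
  rw [P.map_io, P'.map_io]
  apply le_antisymm
  · apply Sp.io_le_of_fun ((P'.bdd_iff V).mpr hV)
    exact Eventually.of_forall fun k w w' a b _ e => by rw [h k w a, h k w' b]; exact e
  · apply Sp.io_le_of_fun ((P.bdd_iff V).mpr hV)
    exact Eventually.of_forall fun k w w' a b _ e => by rw [← h k w a, ← h k w' b]; exact e

/-- INPUT of the walks -/
structure WI (S : Sp) (ι β γ ο : Type) [Fintype β] [Fintype γ] [Fintype ο] (φ : ι → Type) [∀ i, Fintype (φ i)] where
  al : ι → ℕ → Type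
  /-- the base line, literally -/
  bV : ∀ i k, (S.F k).Ω → al i k
  bdd : ∀ i, Sp.Bdd (bV i)
  /-- literal functions of the type -/
  F : ∀ i, φ i → QS S
  /-- the box -/
  g : γ → QS S
  /-- the point -/
  o : ο → QS S
  /-- base coordinates -/
  q : β → QS S
  /-- height -/
  t : QS S
  s : ℝ
  s1 : s ≤ 1
  qo : ∀ a, ∃ c, q a = o c
  tq : dg t 1 ≤ vd q 1
  qb : ∀ i, vd q 1 ≤ Sp.io (bV i) ⊔ dg t 1
  ind : ∀ i, I (Sp.io (bV i)) (vd o 1 ⊔ vd g 1) (vd q 1) = 0
  treal : ∀ i, 1 - s ≤ h (dg t 1) (Sp.io (bV i) ⊔ (vd (F i) 1 ⊔ vd g 1))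
  tbox : ∀ (W : Sp) (P P' : Pj W S), (∀ a, P.qs (g a) = P'.qs (g a)) → P'.qs t - P.qs t ∈ Id W s
  /-- uniform connectedness over the box (bounded labels) -/
  conn : ∀ l : Lab S, l.sp.VB l.V → Nul S (fun k => (l k).leak (rp (vd o 1 ⊔ vd g 1) k)) →
    (∀ i, Nul S (fun k => (l k).leak (rp (Sp.io (bV i) ⊔ (vd (F i) 1 ⊔ vd g 1)) k))) →
    Nul S (fun k => (l k).leak (rp (vd g 1) k))

variable {ι β γ ο : Type} [Fintype β] [Fintype γ] [Fintype ο] {φ : ι → Type} [∀ i, Fintype (φ i)]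

/-- A WALK -/
structure Wd (D : WI S ι β γ ο φ) where
  W : Sp
  K : ℕ
  σ : Fin K → ι
  /-- arrival points -/
  P : Fin (K + 1) → Pj W S
  /-- departure points -/
  P' : Fin K → Pj W S
  ho : ∀ j a, (P' j).qs (D.o a) = (P j.castSucc).qs (D.o a)
  hg0 : ∀ j a, (P' j).qs (D.g a) = (P j.castSucc).qs (D.g a)
  hV : ∀ j, Lit (D.bV (σ j)) (P' j) (P j.succ)
  hF : ∀ j a, (P' j).qs (D.F (σ j) a) = (P j.succ).qs (D.F (σ j) a)
  hg : ∀ j a, (P' j).qs (D.g a) = (P j.succ).qs (D.g a)

namespace Wd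

variable {D : WI S ι β γ ο φ} (w : Wd D)

/-- the first point -/
def p0 : Pj w.W S := w.P 0

/-- the last point -/
def pe : Pj w.W S := w.P (Fin.last w.K)

/-- the base walk: base lines and heights -/
def om : w.W.L :=
  Finset.univ.sup fun j => (w.P' j).map (Sp.io (D.bV (w.σ j))) ⊔ dg ((w.P j.succ).qs D.t) 1

/-- the base walk is independent of the first point given its base point, and it knows the last base point -/
structure Ok : Prop where
  ind : I w.om (w.p0.map (vd D.o 1 ⊔ vd D.g 1)) (w.p0.map (vd D.q 1)) = 0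
  qk : w.pe.map (vd D.q 1) ≤ w.om ⊔ w.p0.map (vd D.q 1)

/-- the box is common to all points -/
theorem g_common (j : Fin (w.K + 1)) (a : γ) : (w.P j).qs (D.g a) = w.p0.qs (D.g a) := by
  induction j using Fin.induction with
  | zero => rfl
  | succ j ih => rw [← w.hg j a, w.hg0 j a, ih]

end Wd

end

end Pool.Agent.Helper92.WK
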